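import Pool.Agent.H94.CC.Stmts

/-!
Modules IND, KSM, EXD of project CC: independent families; images of `κ`; enlarging the first
component of a condition.
-/

set_option linter.unusedVariables false
set_option linter.unusedSectionVars false
set_option synthInstance.maxSize 100000

namespace SW.CC

/-- IND -/
theorem cc_ind (hK : KJStmt) (hB : SMBStmt) (hMS : MSFStmt) : INDStmt := by
  intro M _ _ κ U hM
  have hS := hB M κ U hM
  have hF := hMS M κ U hM
  obtain ⟨j, hj1, hj2⟩ := hK M κ U hM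
  have hCA : Cl (fun z : M => ∃ b y : M, E b κ ∧ Sub y (pow b) ∧ snd z = app j (opair b y) ∧
    E (inter (fst z) b) y) := inferInstance
  refine ⟨sep (prod (pow κ) κ) (fun z => ∃ b y : M, E b κ ∧ Sub y (pow b) ∧
    snd z = app j (opair b y) ∧ E (inter (fst z) b) y), ?_⟩
  intro S S1 a hSs hSκ hS1 ha
  -- first differences
  have hd : Fn1 (fun w : M => the (fun z : M => E z κ ∧ ¬ (E z (fst w) ↔ E z (snd w)) ∧
      ∀ z' : M, E z' z → (E z' (fst w) ↔ E z' (snd w)))) := inferInstance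
  have hdsp : ∀ i i' : M, E i S → E i' S → i ≠ i' →
      ∃ z, E z κ ∧ ¬ (E z i ↔ E z i') ∧ the (fun z : M => E z κ ∧ ¬ (E z (fst (opair i i')) ↔
        E z (snd (opair i i'))) ∧ ∀ z' : M, E z' z → (E z' (fst (opair i i')) ↔
          E z' (snd (opair i i')))) = z := by
    intro i i' hi hi' hne
    have h1 : ∃ z, E z κ ∧ ¬ (E z i ↔ E z i') := by
      by_contra hcon
      refine hne (SW.ext fun z => ?_)
      by_cases hz : E z κ
      · by_contra h2
        exact hcon ⟨z, hz, h2⟩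
      · exact ⟨fun h => absurd (mem_pow.1 (hSκ i hi) z h) hz,
          fun h => absurd (mem_pow.1 (hSκ i' hi') z h) hz⟩
    obtain ⟨z0, hz0, hz0'⟩ := h1
    obtain ⟨b, hb, ⟨hb1, hb2⟩, hb3, _⟩ := ord_min (C := fun z : M => E z κ ∧ ¬ (E z i ↔ E z i'))
      inferInstance (hF.ordm hz0) ⟨hz0, hz0'⟩
    refine ⟨b, hb1, hb2, ?_⟩
    rw [fst_opair, snd_opair]
    refine the_eq ⟨hb1, hb2, fun z' hz' => ?_⟩ ?_
    · by_contra h2
      exact hb3 z' hz' ⟨hM.ord.trans hb1 hz', h2⟩
    · rintro z ⟨hz1, hz2, hz3⟩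
      rcases hb.tri (hF.ordm hz1) with h | h | h
      · exact absurd (hz3 b h) hb2
      · exact h.symm
      · exact absurd ⟨hz1, hz2⟩ (hb3 z h)
  have hex : ∀ w : M, E (the (fun z : M => E z κ ∧ ¬ (E z (fst w) ↔ E z (snd w)) ∧
      ∀ z' : M, E z' z → (E z' (fst w) ↔ E z' (snd w)))) κ := by
    intro w
    by_cases hw : ∃! z : M, E z κ ∧ ¬ (E z (fst w) ↔ E z (snd w)) ∧
      ∀ z' : M, E z' z → (E z' (fst w) ↔ E z' (snd w))
    · exact (the_spec hw).1
    · unfold the
      rw [dif_neg hw]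
      exact hM.ord.trans hM.om emp_mem_om
  obtain ⟨b0, hb0, hbnd⟩ := hS.bnd (X := prod S S) (fun w => the (fun z : M => E z κ ∧
    ¬ (E z (fst w) ↔ E z (snd w)) ∧ ∀ z' : M, E z' z → (E z' (fst w) ↔ E z' (snd w)))) hd
    (hS.prod hSs hSs) (fun w _ => hex w)
  have hsep : ∀ b i i' : M, E b κ → ¬ E b b0 → E i S → E i' S → inter i b = inter i' b →
      i = i' := by
    intro b i i' hb hbb hi hi' he
    by_contra hne
    obtain ⟨z, hz1, hz2, hz3⟩ := hdsp i i' hi hi' hne
    have h1 := hbnd (opair i i') (mem_prod.2 ⟨hi, hi'⟩)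
    rw [hz3] at h1
    have h2 : E z b := (Ord.not_mem_iff (hF.ordm hb) (hF.ordm hb0)).1 hbb z h1
    apply hz2
    have h3 : E z (inter i b) ↔ E z (inter i' b) := by rw [he]
    rw [mem_inter, mem_inter] at h3
    exact ⟨fun h => (h3.1 ⟨h, h2⟩).1, fun h => (h3.2 ⟨h, h2⟩).1⟩
  have himg : ∀ b : M, Fn1 (fun i : M => inter i b) := fun b => inferInstance
  have hyb : ∀ b : M, Sub (img S1 (fun i => inter i b)) (pow b) := by
    intro b w hw
    rw [mem_img' (himg b)] at hw
    obtain ⟨i, _, rfl⟩ := hw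
    rw [mem_pow]
    intro z hz
    rw [mem_inter] at hz
    exact hz.2
  obtain ⟨b, hbκ, hbb0, hba⟩ : ∃ b, E b κ ∧ ¬ E b b0 ∧
      ¬ E (app j (opair b (img S1 (fun i => inter i b)))) a := by
    by_contra hcon
    obtain ⟨x, y, hx, hy, hne, he⟩ := hS.ninj
      (fun b => app j (opair b (img S1 (fun i => inter i b)))) inferInstance (hS.ord ha) hb0
      (fun x hx hxb => by
        by_contra h1
        exact hcon ⟨x, hx, hxb, h1⟩)
    exact hne (hj2 x _ y _ hx.1 (hyb x) hy.1 (hyb y) he).1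
  refine ⟨_, hj1 b _ hbκ (hyb b), hba, fun i hi => ?_⟩
  rw [mem_sep' hCA, mem_prod, fst_opair, snd_opair]
  constructor
  · rintro ⟨_, b', y', hb', hy', he, hm⟩
    obtain ⟨rfl, rfl⟩ := hj2 b _ b' y' hbκ (hyb b) hb' hy' he
    rw [mem_img' (himg b)] at hm
    obtain ⟨i', hi', he'⟩ := hm
    rw [hsep b i i' hbκ hbb0 hi (hS1 i' hi') he']
    exact hi'
  · intro h
    refine ⟨⟨hSκ i hi, hj1 b _ hbκ (hyb b)⟩, b, _, hbκ, hyb b, rfl, ?_⟩
    rw [mem_img' (himg b)]
    exact ⟨i, h, rfl⟩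

section
variable {M : Type} [SetStr M] [ZF M]

theorem ksm_upair {κ : M} (hκ : Ord κ) (hom : E om κ) (X Y : M) : Img κ (upair X Y) := by
  have hf : Fn1 (fun i : M => the (fun w : M => (i = emp ∧ w = X) ∨ (i ≠ emp ∧ w = Y))) :=
    inferInstance
  have h0 : E emp κ := hκ.trans hom emp_mem_om
  refine ⟨gr κ (fun i => the (fun w : M => (i = emp ∧ w = X) ∨ (i ≠ emp ∧ w = Y))),
    fun y hy => ?_⟩
  rw [mem_upair] at hy
  rcases hy with rfl | rfl
  · refine ⟨emp, h0, ?_⟩
    rw [app_gr hf h0]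
    symm
    refine the_eq (Or.inl ⟨rfl, rfl⟩) ?_
    rintro z (h | h)
    · exact h.2
    · exact absurd rfl h.1
  · refine ⟨om, hom, ?_⟩
    have hne : (om : M) ≠ emp := fun h => by
      have := emp_mem_om (M := M)
      rw [h] at this
      exact not_mem_emp _ this
    rw [app_gr hf hom]
    symm
    refine the_eq (Or.inr ⟨hne, rfl⟩) ?_
    rintro z (h | h)
    · exact absurd h.1 hne
    · exact h.2

end

/-- KSM -/
theorem cc_ksm (hP : PRJStmt) (hC : CHSStmt) : KSMStmt := by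
  intro M _ _ κ U hM
  obtain ⟨j, hj1, hj2⟩ := hP M κ U hM
  have h0 : E emp κ := hM.ord.trans hM.om emp_mem_om
  have hsUn : ∀ {X : M} (f : M → M), Fn1 f → Img κ X → (∀ y, E y X → Img κ (f y)) →
      Img κ (SW.sUn (SW.img X f)) := by
    intro X f hf hX hfy
    obtain ⟨g, hg⟩ := hX
    obtain ⟨h, hh⟩ := hC M κ (fun x c => E (app g x) X → ∀ z : M, E z (f (app g x)) →
      ∃ i : M, E i κ ∧ z = app c i) inferInstance (fun x hx => by
        by_cases hx' : E (app g x) X
        · obtain ⟨c, hc⟩ := hfy _ hx'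
          exact ⟨c, fun _ => hc⟩
        · exact ⟨emp, fun h1 => absurd h1 hx'⟩)
    have hw : Fn1 (fun t : M => the (fun w : M => ∃ x i : M, E x κ ∧ E i κ ∧
        t = app j (opair x i) ∧ w = app (app h x) i)) := inferInstance
    refine ⟨gr κ (fun t => the (fun w : M => ∃ x i : M, E x κ ∧ E i κ ∧
      t = app j (opair x i) ∧ w = app (app h x) i)), fun z hz => ?_⟩
    rw [mem_sUn] at hz
    obtain ⟨y, hy, hz⟩ := hz
    rw [mem_img' hf] at hy
    obtain ⟨y, hy, rfl⟩ := hy
    obtain ⟨x, hx, rfl⟩ := hg y hy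
    obtain ⟨i, hi, rfl⟩ := hh x hx hy z hz
    refine ⟨app j (opair x i), hj1 x i hx hi, ?_⟩
    rw [app_gr hw (hj1 x i hx hi)]
    symm
    refine the_eq ⟨x, i, hx, hi, rfl, rfl⟩ ?_
    rintro w ⟨x', i', hx', hi', he, rfl⟩
    obtain ⟨rfl, rfl⟩ := hj2 x i x' i' hx hi hx' hi' he
    rfl
  exact
    { sub := fun {X Y} ⟨f, hf⟩ hY => ⟨f, fun y hy => hf y (hY y hy)⟩
      img := fun {X} f hf ⟨g, hg⟩ => by
        refine ⟨gr κ (fun i => f (app g i)), fun y hy => ?_⟩
        rw [mem_img' hf] at hy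
        obtain ⟨x, hx, rfl⟩ := hy
        obtain ⟨i, hi, rfl⟩ := hg x hx
        exact ⟨i, hi, by rw [app_gr inferInstance hi]⟩
      le := fun {v} hv => ⟨gr κ (fun i => i), fun y hy => ⟨y, hv y hy, by
        rw [app_gr inferInstance (hv y hy)]⟩⟩
      sing := fun a => ksm_upair hM.ord hM.om a a
      bun := fun {X Y} hX hY => by
        have h1 := hsUn (X := upair X Y) (fun y => y) inferInstance
          (ksm_upair hM.ord hM.om X Y) (fun y hy => by
            rw [mem_upair] at hy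
            rcases hy with rfl | rfl
            · exact hX
            · exact hY)
        have h2 : img (upair X Y) (fun y => y) = upair X Y := SW.ext fun z => by
          rw [mem_img' inferInstance]
          exact ⟨fun ⟨x, hx, he⟩ => by rw [he]; exact hx, fun hz => ⟨z, hz, rfl⟩⟩
        rw [h2] at h1
        exact h1
      iUn := fun {X} f hf hX h => hsUn f hf hX h
      cantor := fun ⟨g, hg⟩ => by
        have hD : Cl (fun b : M => ¬ E b (app g b)) := inferInstance
        obtain ⟨x, hx, he⟩ := hg (sep κ (fun b => ¬ E b (app g b))) (by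
          rw [mem_pow]
          intro z hz
          rw [mem_sep' hD] at hz
          exact hz.1)
        have h1 : E x (sep κ (fun b => ¬ E b (app g b))) ↔ E x κ ∧ ¬ E x (app g x) :=
          mem_sep' hD
        rw [he] at h1
        by_cases h2 : E x (app g x)
        · exact (h1.1 h2).2 h2
        · exact h2 (h1.2 ⟨hx, h2⟩) }

/-- EXD -/
theorem cc_exd (hK : KSMStmt) : EXDStmt := by
  intro M _ _ κ U a F c hM hp hc hi
  have hS := hK M κ U hM
  have hp' := mem_CP'.1 hp
  have hle : CLe (opair (bun a c) F) (opair a F) := by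
    rw [CLe_opair]
    refine ⟨fun z hz => mem_bun.2 (Or.inl hz), Sub.refl F, emp,
      fun e x h => absurd h (not_mem_emp _), fun e h h' => absurd h h',
      fun e e' x h => absurd h (not_mem_emp _)⟩
  refine ⟨CP_of_le hp hle ?_ (hS.bun hp'.2.1 hi) ?_, hle⟩
  · intro z hz
    rw [mem_bun] at hz
    rcases hz with hz | hz
    · exact hp'.1 z hz
    · exact hc z hz
  · intro e he z hz
    obtain ⟨x, y, hx, hy, rfl⟩ := mem_prod'.1 (hp'.2.2.1 e he z hz)
    exact mem_prod.2 ⟨mem_bun.2 (Or.inl hx), hy⟩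

end SW.CC
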