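import Pool.Agent.H94.CC.Stmts

/-!
Modules LIN, PRJ, KJ of project CC: injections into the measurable cardinal.
-/

set_option linter.unusedVariables false
set_option linter.unusedSectionVars false
set_option synthInstance.maxSize 100000

namespace SW.CC

/-- LIN -/
theorem cc_lin (hE : ENUMStmt) (hB : SMBStmt) (hACF : ACFStmt) : LINStmt := by
  intro M _ _ κ U Y ρ hM hρ hρκ hsm
  have hS := hB M κ U hM
  obtain ⟨g, hg⟩ := hACF M Y
  have hC : ∀ Z : M, Cl (fun z : M => ∀ z' : M, E z' Z → ¬ E (ρ z') (ρ z)) :=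
    fun Z => inferInstance
  have hch : ∀ Z : M, Sub Z Y → (∃ z, E z Z) →
      E (app g (sep Z (fun z => ∀ z' : M, E z' Z → ¬ E (ρ z') (ρ z)))) Z ∧
      ∀ z' : M, E z' Z → ¬ E (ρ z')
        (ρ (app g (sep Z (fun z => ∀ z' : M, E z' Z → ¬ E (ρ z') (ρ z))))) := by
    intro Z hZ hne
    have h1 := hg (sep Z (fun z => ∀ z' : M, E z' Z → ¬ E (ρ z') (ρ z)))
      (fun z hz => by
        rw [mem_sep' (hC Z)] at hz
        exact hZ z hz.1)
      (by
        obtain ⟨z0, hz0⟩ := hne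
        obtain ⟨r, ⟨z, hz, hr⟩, hmin⟩ := mem_min (C := fun r : M => ∃ z : M, E z Z ∧ r = ρ z)
          inferInstance ⟨ρ z0, z0, hz0, rfl⟩
        refine ⟨z, ?_⟩
        rw [mem_sep' (hC Z)]
        refine ⟨hz, fun z' hz' h2 => ?_⟩
        rw [← hr] at h2
        exact hmin (ρ z') h2 ⟨z', hz', rfl⟩)
    rw [mem_sep' (hC Z)] at h1
    exact h1
  obtain ⟨v, f, hv, hf, hstep⟩ := hE M Y
    (fun Z => app g (sep Z (fun z => ∀ z' : M, E z' Z → ¬ E (ρ z') (ρ z)))) inferInstance
    (fun Z hZ hne => (hch Z hZ hne).1)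
  have hinc : ∀ i i', E i v → E i' v → E i i' → ¬ E (ρ (app f i')) (ρ (app f i)) := by
    intro i i' hi hi' hii'
    have himg : Fn1 (fun j : M => app f j) := inferInstance
    have h1 : E (app f i') (diff Y (img i (fun j => app f j))) := by
      rw [mem_diff, mem_img' himg]
      refine ⟨hf.1 i' hi', ?_⟩
      rintro ⟨j, hj, he⟩
      have h2 := hf.2.1 i' j hi' (hv.trans hi hj) he
      rw [h2] at hii'
      exact not_mem_cycle hii' hj
    have h2 := (hch (diff Y (img i (fun j => app f j))) (fun z hz => by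
      rw [mem_diff] at hz
      exact hz.1) ⟨_, h1⟩).2 (app f i') h1
    rw [hstep i hi]
    exact h2
  have hvκ : Sub v κ := by
    rw [← Ord.not_mem_iff hM.ord hv]
    intro hκv
    have hc := hf.1 κ hκv
    have hCa : Cl (fun y : M => ¬ E (ρ (app f κ)) (ρ y)) := inferInstance
    obtain ⟨x, y, hx, hy, hne, he⟩ := hS.ninj (fun i => app f i) inferInstance
      (hsm (ρ (app f κ)) (hρκ _ hc)) (hM.ord.trans hM.om emp_mem_om) (fun i hi _ => by
        rw [mem_sep' hCa]
        exact ⟨hf.1 i (hv.trans hκv hi), hinc i κ (hv.trans hκv hi) hκv hi⟩)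
    exact hne (hf.2.1 x y (hv.trans hκv hx.1) (hv.trans hκv hy.1) he)
  have hj : Fn1 (fun y : M => the (fun i : M => E i v ∧ y = app f i)) := inferInstance
  have key : ∀ y, E y Y → E (the (fun i : M => E i v ∧ y = app f i)) v ∧
      y = app f (the (fun i : M => E i v ∧ y = app f i)) := by
    intro y hy
    obtain ⟨i, hi, he⟩ := hf.2.2 y hy
    refine the_spec (p := fun i : M => E i v ∧ y = app f i) ⟨i, ⟨hi, he⟩, ?_⟩
    rintro i' ⟨hi', he'⟩
    exact hf.2.1 i' i hi' hi (by rw [← he, ← he'])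
  refine ⟨gr Y (fun y => the (fun i : M => E i v ∧ y = app f i)), fun y hy => ?_,
    fun y y' hy hy' he => ?_⟩
  · rw [app_gr hj hy]
    exact hvκ _ (key y hy).1
  · rw [app_gr hj hy, app_gr hj hy'] at he
    rw [(key y hy).2, (key y' hy').2, he]

/-- PRJ -/
theorem cc_prj (hL : LINStmt) (hB : SMBStmt) (hMS : MSFStmt) : PRJStmt := by
  intro M _ _ κ U hM
  have hS := hB M κ U hM
  have hF := hMS M κ U hM
  have hbun : ∀ {a b : M}, E a κ → E b κ → E (bun a b) κ := by
    intro a b ha hb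
    have h1 : bun a b = a ∨ bun a b = b := by
      rcases (hF.ordm ha).tri (hF.ordm hb) with h | h | h
      · right
        refine SW.ext fun z => ?_
        rw [mem_bun]
        exact ⟨fun hz => hz.elim (fun hz => (hF.ordm hb).trans h hz) id, Or.inr⟩
      · right
        refine SW.ext fun z => ?_
        rw [mem_bun, h]
        exact ⟨fun hz => hz.elim id id, Or.inr⟩
      · left
        refine SW.ext fun z => ?_
        rw [mem_bun]
        exact ⟨fun hz => hz.elim id (fun hz => (hF.ordm ha).trans h hz), Or.inl⟩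
    rcases h1 with h1 | h1
    · rw [h1]; exact ha
    · rw [h1]; exact hb
  have hle : ∀ {a b c : M}, E a κ → E b κ → ¬ E a b → E b (suc a) := by
    intro a b c ha hb h
    rw [mem_suc]
    exact (Ord.sub_iff (hF.ordm hb) (hF.ordm ha)).1 ((Ord.not_mem_iff (hF.ordm ha) (hF.ordm hb)).1 h)
  obtain ⟨j, hj1, hj2⟩ := hL M κ U (prod κ κ) (fun z => bun (fst z) (snd z)) hM inferInstance
    (fun z hz => by
      obtain ⟨a, b, ha, hb, rfl⟩ := mem_prod'.1 hz
      rw [fst_opair, snd_opair]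
      exact hbun ha hb)
    (fun a ha => by
      have hC : Cl (fun z : M => ¬ E a (bun (fst z) (snd z))) := inferInstance
      refine hS.sub (hS.prod (hS.ord (hF.suc ha)) (hS.ord (hF.suc ha))) fun z hz => ?_
      rw [mem_sep' hC] at hz
      obtain ⟨hz1, hz2⟩ := hz
      obtain ⟨x, y, hx, hy, rfl⟩ := mem_prod'.1 hz1
      rw [fst_opair, snd_opair, mem_bun] at hz2
      rw [mem_prod]
      exact ⟨hle (c := a) ha hx fun h => hz2 (Or.inl h),
        hle (c := a) ha hy fun h => hz2 (Or.inr h)⟩)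
  refine ⟨j, fun a b ha hb => hj1 _ (mem_prod.2 ⟨ha, hb⟩), fun a b a' b' ha hb ha' hb' he => ?_⟩
  exact opair_inj.1 (hj2 _ _ (mem_prod.2 ⟨ha, hb⟩) (mem_prod.2 ⟨ha', hb'⟩) he)

/-- KJ -/
theorem cc_kj (hL : LINStmt) (hB : SMBStmt) (hMS : MSFStmt) : KJStmt := by
  intro M _ _ κ U hM
  have hS := hB M κ U hM
  have hF := hMS M κ U hM
  have hCY : Cl (fun z : M => Sub (snd z) (pow (fst z))) := inferInstance
  have hmem : ∀ b y : M, E b κ → Sub y (pow b) →
      E (opair b y) (sep (prod κ (pow (pow κ))) (fun z => Sub (snd z) (pow (fst z)))) := by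
    intro b y hb hy
    rw [mem_sep' hCY, mem_prod, mem_pow, fst_opair, snd_opair]
    refine ⟨⟨hb, fun z hz => ?_⟩, hy⟩
    rw [mem_pow]
    exact (mem_pow.1 (hy z hz)).trans (hM.ord.sub_of_mem hb)
  obtain ⟨j, hj1, hj2⟩ := hL M κ U
    (sep (prod κ (pow (pow κ))) (fun z => Sub (snd z) (pow (fst z)))) (fun z => fst z) hM
    inferInstance
    (fun z hz => by
      rw [mem_sep' hCY] at hz
      obtain ⟨a, b, ha, hb, rfl⟩ := mem_prod'.1 hz.1
      rw [fst_opair]
      exact ha)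
    (fun a ha => by
      have hC : Cl (fun z : M => ¬ E a (fst z)) := inferInstance
      refine hS.sub (hS.prod (hS.ord (hF.suc ha)) (hS.pow (hS.pow (hS.ord (hF.suc ha)))))
        fun z hz => ?_
      rw [mem_sep' hC, mem_sep' hCY] at hz
      obtain ⟨⟨hz1, hz3⟩, hz2⟩ := hz
      obtain ⟨x, y, hx, hy, rfl⟩ := mem_prod'.1 hz1
      rw [fst_opair] at hz2 hz3
      rw [snd_opair] at hz3
      have h1 : E x (suc a) := by
        rw [mem_suc]
        exact (Ord.sub_iff (hF.ordm hx) (hF.ordm ha)).1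
          ((Ord.not_mem_iff (hF.ordm ha) (hF.ordm hx)).1 hz2)
      rw [mem_prod]
      refine ⟨h1, ?_⟩
      rw [mem_pow]
      intro w hw
      rw [mem_pow]
      refine (mem_pow.1 (hz3 w hw)).trans ?_
      exact (Ord_suc (hF.ordm ha)).sub_of_mem h1)
  refine ⟨j, fun b y hb hy => hj1 _ (hmem b y hb hy), fun b y b' y' hb hy hb' hy' he => ?_⟩
  exact opair_inj.1 (hj2 _ _ (hmem b y hb hy) (hmem b' y' hb' hy') he)

end SW.CC
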