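import Pool.Agent.H94.CC.Stmts

/-!
Module SMA of project CC: small sets, without choice.
-/

set_option linter.unusedVariables false
set_option linter.unusedSectionVars false
set_option synthInstance.maxSize 100000

namespace SW.CC

section
variable {M : Type} [SetStr M] [ZF M] {κ U : M}

/-- smallness for class relations which cover a member of the measure -/
theorem sma_loc (hM : Meas κ U) (hF : MFacts κ U) {X Q : M} (hX : Small κ U X) (hQ : E Q U)
    (R : M → M → Prop) (hR : Cl2 R) (h : ∀ a, E a Q → ∃ x, E x X ∧ R a x) :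
    ∃ x, E x X ∧ E (sep κ (fun a => R a x)) U := by
  have hne : ∃ a, E a Q := by
    by_contra hcon
    rw [eq_emp (x := Q) fun z hz => hcon ⟨z, hz⟩] at hQ
    exact hF.nemp hQ
  obtain ⟨x0, hx0⟩ : ∃ x, E x X := by
    obtain ⟨a, ha⟩ := hne
    obtain ⟨x, hx, _⟩ := h a ha
    exact ⟨x, hx⟩
  have hC : Cl (fun z : M => ∃ a x : M, z = opair a x ∧ (R a x ∨ ¬ E a Q)) := inferInstance
  have key : ∀ a x : M, E (opair a x)
      (sep (prod κ X) (fun z => ∃ a x : M, z = opair a x ∧ (R a x ∨ ¬ E a Q))) ↔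
      (E a κ ∧ E x X) ∧ (R a x ∨ ¬ E a Q) := by
    intro a x
    rw [mem_sep' hC, mem_prod]
    refine and_congr_right fun _ => ⟨?_, fun h => ⟨a, x, rfl, h⟩⟩
    rintro ⟨a', x', he, h⟩
    obtain ⟨rfl, rfl⟩ := opair_inj.1 he
    exact h
  obtain ⟨x, hx, hU⟩ := hX
    (sep (prod κ X) (fun z => ∃ a x : M, z = opair a x ∧ (R a x ∨ ¬ E a Q))) (by
      intro a ha
      by_cases haQ : E a Q
      · obtain ⟨x, hx, hr⟩ := h a haQ
        exact ⟨x, hx, (key a x).2 ⟨⟨ha, hx⟩, Or.inl hr⟩⟩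
      · exact ⟨x0, hx0, (key a x0).2 ⟨⟨ha, hx0⟩, Or.inr haQ⟩⟩)
  refine ⟨x, hx, hM.up (hF.inter hU hQ) ?_ ?_⟩
  · intro a ha
    rw [mem_inter, mem_sep' inferInstance, key] at ha
    rw [mem_sep' inferInstance]
    refine ⟨ha.1.1, ?_⟩
    rcases ha.1.2.2 with h1 | h1
    · exact h1
    · exact absurd ha.2 h1
  · intro a ha
    rw [mem_sep' inferInstance] at ha
    exact ha.1

theorem sma_cl (hM : Meas κ U) (hF : MFacts κ U) {X : M} (hX : Small κ U X)
    (R : M → M → Prop) (hR : Cl2 R) (h : ∀ a, E a κ → ∃ x, E x X ∧ R a x) :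
    ∃ x, E x X ∧ E (sep κ (fun a => R a x)) U :=
  sma_loc hM hF hX hF.full R hR h

theorem sma_nonempty (hF : MFacts κ U) {Q : M} (hQ : E Q U) : ∃ a, E a Q := by
  by_contra hcon
  rw [eq_emp (x := Q) fun z hz => hcon ⟨z, hz⟩] at hQ
  exact hF.nemp hQ

theorem sma_sub (hM : Meas κ U) (hF : MFacts κ U) {X Y : M} (hX : Small κ U X) (hY : Sub Y X) :
    Small κ U Y := by
  intro R hR
  obtain ⟨x, hx, hU⟩ := sma_cl hM hF hX (fun a x : M => E (opair a x) R ∧ E x Y) inferInstance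
    (fun a ha => by
      obtain ⟨x, hx, h⟩ := hR a ha
      exact ⟨x, hY x hx, h, hx⟩)
  obtain ⟨a, ha⟩ := sma_nonempty hF hU
  rw [mem_sep' inferInstance] at ha
  refine ⟨x, ha.2.2, hM.up hU (fun z hz => ?_) (fun z hz => ?_)⟩
  · rw [mem_sep' inferInstance] at hz ⊢
    exact ⟨hz.1, hz.2.1⟩
  · rw [mem_sep' inferInstance] at hz
    exact hz.1

theorem sma_img (hM : Meas κ U) (hF : MFacts κ U) {X : M} (f : M → M) (hf : Fn1 f)
    (hX : Small κ U X) : Small κ U (img X f) := by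
  intro R hR
  obtain ⟨x, hx, hU⟩ := sma_cl hM hF hX (fun a x : M => E (opair a (f x)) R) inferInstance
    (fun a ha => by
      obtain ⟨y, hy, h⟩ := hR a ha
      rw [mem_img' hf] at hy
      obtain ⟨x, hx, rfl⟩ := hy
      exact ⟨x, hx, h⟩)
  exact ⟨f x, (mem_img' hf).2 ⟨x, hx, rfl⟩, hU⟩

theorem sma_inj (hM : Meas κ U) (hF : MFacts κ U) {X Y : M} (f : M → M) (hf : Fn1 f)
    (hY : Small κ U Y) (h1 : ∀ x, E x X → E (f x) Y)
    (h2 : ∀ x x', E x X → E x' X → f x = f x' → x = x') : Small κ U X := by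
  intro R hR
  obtain ⟨y, hy, hU⟩ := sma_cl hM hF hY
    (fun a y : M => ∃ x : M, E x X ∧ y = f x ∧ E (opair a x) R) inferInstance
    (fun a ha => by
      obtain ⟨x, hx, h⟩ := hR a ha
      exact ⟨f x, h1 x hx, x, hx, rfl, h⟩)
  obtain ⟨a, ha⟩ := sma_nonempty hF hU
  rw [mem_sep' inferInstance] at ha
  obtain ⟨haκ, x, hx, hxy, hxR⟩ := ha
  refine ⟨x, hx, hM.up hU (fun z hz => ?_) (fun z hz => ?_)⟩
  · rw [mem_sep' inferInstance] at hz ⊢
    obtain ⟨hz1, x', hx', hxy', hxR'⟩ := hz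
    have : x' = x := h2 x' x hx' hx (by rw [← hxy, ← hxy'])
    rw [this] at hxR'
    exact ⟨hz1, hxR'⟩
  · rw [mem_sep' inferInstance] at hz
    exact hz.1

theorem sma_ord (hM : Meas κ U) (hF : MFacts κ U) {v : M} (hv : E v κ) : Small κ U v := by
  intro R hR
  by_contra hcon
  have h1 := hM.cmp (v := v) (fun x => diff κ (sep κ (fun a => E (opair a x) R))) inferInstance hv
    (fun x hx => by
      rcases hM.ult (X := sep κ (fun a => E (opair a x) R)) (fun z hz => by
        rw [mem_sep' inferInstance] at hz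
        exact hz.1) with h | h
      · exact absurd ⟨x, hx, h⟩ hcon
      · exact h)
  obtain ⟨a, ha⟩ := sma_nonempty hF h1
  rw [mem_sep' inferInstance] at ha
  obtain ⟨x, hx, hxR⟩ := hR a ha.1
  have h2 := ha.2 x hx
  rw [mem_diff, mem_sep' inferInstance] at h2
  exact h2.2 ⟨ha.1, hxR⟩

theorem sma_om (hM : Meas κ U) (hF : MFacts κ U) : Small κ U om := sma_ord hM hF hM.om

theorem sma_fin (hM : Meas κ U) (hF : MFacts κ U) {X : M} (hX : Fnt X) : Small κ U X := by
  obtain ⟨n, hn, g, h1, h2, h3, h4⟩ := hX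
  have hf : Fn1 (fun i : M => the (fun y : M => E y X ∧ E (opair i y) g)) := inferInstance
  refine sma_sub hM hF (X := img n (fun i => the (fun y => E y X ∧ E (opair i y) g)))
    (sma_img hM hF _ hf (sma_ord hM hF (hM.ord.trans hM.om hn))) fun y hy => ?_
  rw [mem_img' hf]
  obtain ⟨i, hi, hiy⟩ := h2 y hy
  refine ⟨i, hi, (the_eq ⟨hy, hiy⟩ ?_).symm⟩
  rintro z ⟨_, hz⟩
  exact h3 i z y hi hz hiy

theorem sma_sUn (hM : Meas κ U) (hF : MFacts κ U) {X : M} (hX : Small κ U X)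
    (h : ∀ y, E y X → Small κ U y) : Small κ U (sUn X) := by
  intro R hR
  obtain ⟨y, hy, hU⟩ := sma_cl hM hF hX
    (fun a y : M => ∃ x : M, E x y ∧ E (opair a x) R) inferInstance
    (fun a ha => by
      obtain ⟨x, hx, hxR⟩ := hR a ha
      rw [mem_sUn] at hx
      obtain ⟨y, hy, hxy⟩ := hx
      exact ⟨y, hy, x, hxy, hxR⟩)
  obtain ⟨x, hx, hU'⟩ := sma_loc hM hF (h y hy) hU (fun a x : M => E (opair a x) R)
    inferInstance (fun a ha => by
      rw [mem_sep' inferInstance] at ha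
      exact ha.2)
  exact ⟨x, mem_sUn.2 ⟨y, hy, hx⟩, hU'⟩

theorem sma_iUn (hM : Meas κ U) (hF : MFacts κ U) {X : M} (f : M → M) (hf : Fn1 f)
    (hX : Small κ U X) (h : ∀ y, E y X → Small κ U (f y)) :
    Small κ U (SW.sUn (SW.img X f)) := by
  refine sma_sUn hM hF (sma_img hM hF f hf hX) fun y hy => ?_
  rw [mem_img' hf] at hy
  obtain ⟨x, hx, rfl⟩ := hy
  exact h x hx

theorem sma_bun (hM : Meas κ U) (hF : MFacts κ U) {X Y : M} (hX : Small κ U X)
    (hY : Small κ U Y) : Small κ U (bun X Y) := by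
  have h : Fnt (upair X Y) := by
    have h : upair X Y = ins Y (ins X emp) := SW.ext fun z => by
      rw [mem_upair, mem_ins, mem_ins]
      constructor
      · rintro (h | h)
        · exact Or.inl (Or.inr h)
        · exact Or.inr h
      · rintro ((h | h) | h)
        · exact absurd h (not_mem_emp z)
        · exact Or.inl h
        · exact Or.inr h
    rw [h]
    exact finF.ins (finF.ins finF.emp)
  refine sma_sUn hM hF (sma_fin hM hF h) fun y hy => ?_
  rw [mem_upair] at hy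
  rcases hy with rfl | rfl
  · exact hX
  · exact hY

theorem sma_cmp (hM : Meas κ U) (hF : MFacts κ U) {X : M} (f : M → M) (hf : Fn1 f)
    (hX : Small κ U X) (h : ∀ x, E x X → E (f x) U) :
    E (sep κ (fun z => ∀ x : M, E x X → E z (f x))) U := by
  have hC : Cl (fun z : M => ∀ x : M, E x X → E z (f x)) := inferInstance
  rcases hM.ult (X := sep κ (fun z => ∀ x : M, E x X → E z (f x))) (fun z hz => by
    rw [mem_sep' hC] at hz
    exact hz.1) with h1 | h1
  · exact h1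
  · exfalso
    obtain ⟨x, hx, hU⟩ := sma_loc hM hF hX h1 (fun a x : M => ¬ E a (f x)) inferInstance
      (fun a ha => by
        rw [mem_diff, mem_sep' hC] at ha
        by_contra hcon
        refine ha.2 ⟨ha.1, fun x hx => ?_⟩
        by_contra hxa
        exact hcon ⟨x, hx, hxa⟩)
    obtain ⟨a, ha⟩ := sma_nonempty hF (hF.inter hU (h x hx))
    rw [mem_inter, mem_sep' inferInstance] at ha
    exact ha.1.2 ha.2

theorem sma_nself (hM : Meas κ U) (hF : MFacts κ U) : ¬ Small κ U κ := by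
  intro h
  obtain ⟨x, hx, hU⟩ := sma_cl hM hF h (fun a x : M => a = x) inferInstance
    (fun a ha => ⟨a, ha, rfl⟩)
  refine hM.np (a := x) (fun z hz => ?_) hU
  rw [mem_sep' inferInstance] at hz
  rw [mem_sing]
  exact hz.2

theorem sma_bnd (hM : Meas κ U) (hF : MFacts κ U) {X : M} (f : M → M) (hf : Fn1 f)
    (hX : Small κ U X) (h : ∀ x, E x X → E (f x) κ) : ∃ b, E b κ ∧ ∀ x, E x X → E (f x) b := by
  by_contra hcon
  obtain ⟨x, hx, hU⟩ := sma_cl hM hF hX (fun b x : M => ¬ E (f x) b) inferInstance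
    (fun b hb => by
      by_contra hcon2
      refine hcon ⟨b, hb, fun x hx => ?_⟩
      by_contra hxb
      exact hcon2 ⟨x, hx, hxb⟩)
  refine hF.nbdd (hF.suc (h x hx)) (fun z hz => ?_) hU
  rw [mem_sep' inferInstance] at hz
  rw [mem_suc]
  have h1 := (Ord.not_mem_iff (hF.ordm (h x hx)) (hF.ordm hz.1)).1 hz.2
  exact (Ord.sub_iff (hF.ordm hz.1) (hF.ordm (h x hx))).1 h1

theorem sma_ninj (hM : Meas κ U) (hF : MFacts κ U) {X a : M} (f : M → M) (hf : Fn1 f)
    (hX : Small κ U X) (ha : E a κ) (h : ∀ x, E x κ → ¬ E x a → E (f x) X) :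
    ∃ x y, (E x κ ∧ ¬ E x a) ∧ (E y κ ∧ ¬ E y a) ∧ x ≠ y ∧ f x = f y := by
  obtain ⟨y, hy, hU⟩ := sma_loc hM hF hX (hF.tail ha) (fun x y : M => y = f x) inferInstance
    (fun x hx => by
      rw [mem_diff] at hx
      exact ⟨f x, h x hx.1 hx.2, rfl⟩)
  have hS := hF.inter hU (hF.tail ha)
  obtain ⟨x, hx⟩ := sma_nonempty hF hS
  have h2 : ∃ z, E z (inter (sep κ (fun a => y = f a)) (diff κ a)) ∧ z ≠ x := by
    by_contra hcon
    refine hM.np (a := x) (fun z hz => ?_) hS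
    rw [mem_sing]
    by_contra hzx
    exact hcon ⟨z, hz, hzx⟩
  obtain ⟨z, hz, hzx⟩ := h2
  rw [mem_inter, mem_sep' inferInstance, mem_diff] at hx hz
  exact ⟨x, z, hx.2, hz.2, fun e => hzx e.symm, by rw [← hx.1.2, ← hz.1.2]⟩

end

/-- SMA -/
theorem cc_sma (h : MSFStmt) : SMAStmt := by
  intro M _ _ κ U hM
  have hF := h M κ U hM
  exact
    { sub := fun hX hY => sma_sub hM hF hX hY
      img := fun f hf hX => sma_img hM hF f hf hX
      inj := fun f hf hY h1 h2 => sma_inj hM hF f hf hY h1 h2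
      ord := fun hv => sma_ord hM hF hv
      om := sma_om hM hF
      fin := fun hX => sma_fin hM hF hX
      bun := fun hX hY => sma_bun hM hF hX hY
      sUn := fun hX h => sma_sUn hM hF hX h
      iUn := fun f hf hX h => sma_iUn hM hF f hf hX h
      cmp := fun f hf hX h => sma_cmp hM hF f hf hX h
      nself := sma_nself hM hF
      bnd := fun f hf hX h => sma_bnd hM hF f hf hX h
      ninj := fun f hf hX ha h => sma_ninj hM hF f hf hX ha h }

end SW.CC
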