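import Pool.Agent.H94.CC.Stmts

/-!
Module SMB of project CC: small sets, with choice.
-/

set_option linter.unusedVariables false
set_option linter.unusedSectionVars false
set_option synthInstance.maxSize 100000

namespace SW.CC

section
variable {M : Type} [SetStr M] [ZF M] {κ U : M}

theorem smb_pow (hM : Meas κ U) (hS : SmA κ U) {X : M} (hX : Small κ U X)
    (hch : ∀ R : M, (∀ a, E a κ → ∃ y, E y (pow X) ∧ E (opair a y) R) →
      ∃ g, ∀ a, E a κ → E (app g a) (pow X) ∧ E (opair a (app g a)) R) :
    Small κ U (pow X) := by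
  intro R hR
  obtain ⟨g, hg⟩ := hch R hR
  have hf : Fn1 (fun x : M => sep κ (fun a => E x (app g a) ↔
      E (sep κ (fun a' => E x (app g a'))) U)) := inferInstance
  have h1 := hS.cmp (X := X) (fun x => sep κ (fun a => E x (app g a) ↔
      E (sep κ (fun a' => E x (app g a'))) U)) hf hX (fun x hx => by
    have hCx : Cl (fun a' : M => E x (app g a')) := inferInstance
    have hCx2 : Cl (fun a : M => E x (app g a) ↔ E (sep κ (fun a' => E x (app g a'))) U) :=
      inferInstance
    have hsub : Sub (sep κ (fun a' => E x (app g a'))) κ := fun z hz => by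
      rw [mem_sep' hCx] at hz
      exact hz.1
    have hsub2 : Sub (sep κ (fun a => E x (app g a) ↔
        E (sep κ (fun a' => E x (app g a'))) U)) κ := fun z hz => by
      rw [mem_sep' hCx2] at hz
      exact hz.1
    rcases em (E (sep κ (fun a' => E x (app g a'))) U) with h2 | h2
    · refine hM.up h2 (fun z hz => ?_) hsub2
      rw [mem_sep' hCx] at hz
      rw [mem_sep' hCx2]
      exact ⟨hz.1, fun _ => h2, fun _ => hz.2⟩
    · rcases hM.ult hsub with h3 | h3
      · exact absurd h3 h2
      · refine hM.up h3 (fun z hz => ?_) hsub2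
        rw [mem_diff, mem_sep' hCx] at hz
        rw [mem_sep' hCx2]
        exact ⟨hz.1, fun h4 => absurd ⟨hz.1, h4⟩ hz.2, fun h4 => absurd h4 h2⟩)
  have hCy : Cl (fun x : M => E (sep κ (fun a' => E x (app g a'))) U) := inferInstance
  refine ⟨sep X (fun x => E (sep κ (fun a' => E x (app g a'))) U), ?_, hM.up h1 ?_ ?_⟩
  · rw [mem_pow]
    intro z hz
    rw [mem_sep' hCy] at hz
    exact hz.1
  · intro a ha
    rw [mem_sep' inferInstance] at ha ⊢
    refine ⟨ha.1, ?_⟩
    have h2 : sep X (fun x => E (sep κ (fun a' => E x (app g a'))) U) = app g a := by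
      refine SW.ext fun x => ?_
      rw [mem_sep' hCy]
      constructor
      · rintro ⟨hx, h3⟩
        have h4 := ha.2 x hx
        rw [mem_sep' inferInstance] at h4
        exact h4.2.2 h3
      · intro hx
        have hxX : E x X := mem_pow.1 (hg a ha.1).1 x hx
        have h4 := ha.2 x hxX
        rw [mem_sep' inferInstance] at h4
        exact ⟨hxX, h4.2.1 hx⟩
    rw [h2]
    exact (hg a ha.1).2
  · intro z hz
    rw [mem_sep' inferInstance] at hz
    exact hz.1

end

/-- SMB -/
theorem cc_smb (hA : SMAStmt) (hC : CHSStmt) (hW : WELLStmt) : SMBStmt := by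
  intro M _ _ κ U hM
  have hS := hA M κ U hM
  have hpow : ∀ {X : M}, Small κ U X → Small κ U (pow X) := fun {X} hX =>
    smb_pow hM hS hX fun R hR => by
      obtain ⟨g, hg⟩ := hC M κ (fun a y => E y (pow X) ∧ E (opair a y) R) inferInstance hR
      exact ⟨g, hg⟩
  have hbij : ∀ {X : M}, Small κ U X → ∃ v f, E v κ ∧ Bij v X f := fun {X} hX => by
    obtain ⟨v, f, hv, hf⟩ := hW M X
    refine ⟨v, f, ?_, hf⟩
    by_contra hcon
    have h1 := (Ord.not_mem_iff hv hM.ord).1 hcon
    obtain ⟨x, y, hx, hy, hne, he⟩ := hS.ninj (fun i => app f i) inferInstance hX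
      (hM.ord.trans hM.om emp_mem_om) (fun x hx _ => hf.1 x (h1 x hx))
    exact hne (hf.2.1 x y (h1 x hx.1) (h1 y hy.1) he)
  exact
    { toSmA := hS
      pow := hpow
      prod := fun {X Y} hX hY => by
        refine hS.sub (hpow (hpow (hS.bun hX hY))) fun z hz => ?_
        unfold SW.prod at hz
        rw [mem_sep' inferInstance] at hz
        exact hz.1
      bij := hbij
      im := fun {X} hX => by
        obtain ⟨v, f, hv, hf⟩ := hbij hX
        refine ⟨f, fun y hy => ?_⟩
        obtain ⟨i, hi, rfl⟩ := hf.2.2 y hy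
        exact ⟨i, hM.ord.trans hv hi, rfl⟩ }

end SW.CC
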